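import Pool.Agent.Q271.FF.Vdc

set_option autoImplicit false

/-! # MP_05fa0d_nt: digital Kronecker - van der Corput sequences for `Bad(P, q)` -/

namespace Pool.Agent.Results.MP_05fa0d_nt.LowDiscrepancy

open Polynomial

variable {F : Type} [Field F] [Fintype F]

/-- Elements of `F((1/t))` are Laurent series in `1/t`: the coefficient of `t ^ (-i)` in `Θ` is
`Θ.coeff i`. This is the embedding of the polynomials in `t`: a constant `c` goes to `c` and `t` goes
to `t`. -/
noncomputable def toSeries : F[X] →+* LaurentSeries F :=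
  eval₂RingHom HahnSeries.C (HahnSeries.single (-1 : ℤ) (1 : F))

open Classical in
/-- The absolute value `|Θ|`: `|0| = 0` and `|Θ| = q ^ h` if `t ^ h` is the leading power of `t`. -/
noncomputable def absv (Θ : LaurentSeries F) : ℝ :=
  if Θ = 0 then 0 else (Fintype.card F : ℝ) ^ (-Θ.order)

/-- The fractional part: the coefficients of `t ^ (-i)` with `i ≥ 1`. -/
def frac (Θ : LaurentSeries F) : LaurentSeries F where
  coeff := fun i => if 1 ≤ i then Θ.coeff i else 0
  isPWO_support' := by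
    apply Θ.isPWO_support.mono
    intro i hi
    rw [Function.mem_support] at hi
    rw [HahnSeries.mem_support]
    intro h
    apply hi
    simp only [h, ite_self]

/-- `Bad(P, q)`: the infimum of `|N| |⟨N P ^ k Θ⟩|` over all polynomials `N ≠ 0` and `k ≥ 0` is
positive; here `|N| = q ^ deg N`. -/
def Bad (P : F[X]) : Set (LaurentSeries F) :=
  {Θ | 0 < sInf {y : ℝ | ∃ (N : F[X]) (k : ℕ), N ≠ 0 ∧
    y = (Fintype.card F : ℝ) ^ N.natDegree * absv (frac (toSeries (N * P ^ k) * Θ))}}

/-- The polynomial `n(t) = ∑ E⁻¹(d_i) t ^ i` for `n = ∑ d_i q ^ i` in base `q`. -/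
noncomputable def poly (E : F ≃ Fin (Fintype.card F)) (n : ℕ) : F[X] :=
  ∑ i ∈ Finset.range (n + 1), monomial i (E.symm ⟨n / Fintype.card F ^ i % Fintype.card F,
    Nat.mod_lt _ Fintype.card_pos⟩)

/-- `ev_q(b) = ∑ E(c_j) q ^ j` for a polynomial `b = ∑ c_j t ^ j`. -/
noncomputable def evPoly (E : F ≃ Fin (Fintype.card F)) (b : F[X]) : ℕ :=
  ∑ j ∈ Finset.range (b.natDegree + 1), (E (b.coeff j) : ℕ) * Fintype.card F ^ j

/-- `ev_q` of a fractional part: `∑ E(a_i) q ^ (-i)`, the sum over `i ≥ 1`. -/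
noncomputable def evFrac (E : F ≃ Fin (Fintype.card F)) (Θ : LaurentSeries F) : ℝ :=
  ∑' i : ℕ, ((E (Θ.coeff ((i : ℤ) + 1)) : ℕ) : ℝ) / (Fintype.card F : ℝ) ^ (i + 1)

/-- The digital Kronecker sequence `K_n(Θ) = ev_q(⟨n(t) Θ⟩)`. -/
noncomputable def K (E : F ≃ Fin (Fintype.card F)) (Θ : LaurentSeries F) (n : ℕ) : ℝ :=
  evFrac E (frac (toSeries (poly E n) * Θ))

/-- The digital van der Corput sequence: `V_n(B) = ∑ ev_q(b_i) / |B| ^ (i + 1)` for
`n(t) = ∑ b_i B ^ i` with `deg b_i < deg B`, that is `b_i = ⌊n(t) / B ^ i⌋ mod B`. -/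
noncomputable def V (E : F ≃ Fin (Fintype.card F)) (B : F[X]) (n : ℕ) : ℝ :=
  ∑' i : ℕ, (evPoly E (poly E n / B ^ i % B) : ℝ) /
    ((Fintype.card F : ℝ) ^ B.natDegree) ^ (i + 1)

open Classical in
/-- The star discrepancy of the hybrid sequence `H_n = (K_n(Θ), V_n(P))`. -/
noncomputable def D (E : F ≃ Fin (Fintype.card F)) (Θ : LaurentSeries F) (P : F[X]) (N : ℕ) : ℝ :=
  sSup {y : ℝ | ∃ γ μ : ℝ, 0 ≤ γ ∧ γ ≤ 1 ∧ 0 ≤ μ ∧ μ ≤ 1 ∧
    y = |(1 / (N:ℝ)) * ((Finset.range N).filter
      (fun n => (K E Θ n, V E P n) ∈ Set.Ico 0 γ ×ˢ Set.Ico 0 μ)).card - γ * μ|}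

/-- **Full answer to Q1**: for every finite field `F` with `q` elements, every bijection `E` of `F`
onto `{0, ..., q - 1}` with `E(0) = 0`, every nonconstant (in particular every irreducible)
polynomial `P` and every `Θ ∈ Bad(P, q)` the hybrid sequence is low discrepancy. -/
theorem result (F : Type) [Field F] [Fintype F] (E : F ≃ Fin (Fintype.card F))
    (hE : (E 0 : ℕ) = 0) (P : F[X]) (hP : 1 ≤ P.natDegree) (Θ : LaurentSeries F)
    (hΘ : Θ ∈ Bad P) :
    ∃ C : ℝ, ∀ N : ℕ, 2 ≤ N → D E Θ P N ≤ C * (Real.log N) ^ 2 / N := by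
  classical
  have hq : 2 ≤ Fintype.card F := Fintype.one_lt_card
  have hqr : (2:ℝ) ≤ Fintype.card F := by exact_mod_cast hq
  have hq0 : (0:ℝ) < Fintype.card F := by linarith
  set S : Set ℝ := {y : ℝ | ∃ (N : F[X]) (k : ℕ), N ≠ 0 ∧
    y = (Fintype.card F : ℝ) ^ N.natDegree * absv (frac (toSeries (N * P ^ k) * Θ))} with hS
  have hcpos : 0 < sInf S := hΘ
  have habs : ∀ T : LaurentSeries F, 0 ≤ absv T := by
    intro T
    unfold absv
    split_ifs
    · exact le_rfl
    · positivity
  have hbdd : BddBelow S := by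
    refine ⟨0, ?_⟩
    rintro _ ⟨N, k, -, rfl⟩
    have := habs (frac (toSeries (N * P ^ k) * Θ))
    positivity
  obtain ⟨s, hs⟩ : ∃ s : ℕ, ((1:ℝ) / 2) ^ s < sInf S :=
    exists_pow_lt_of_lt_one hcpos (by norm_num)
  have hB : Q271.FF.BadS Θ P s := by
    intro k N hN
    have h1 : sInf S ≤ (Fintype.card F : ℝ) ^ N.natDegree *
        absv (frac (toSeries (N * P ^ k) * Θ)) := csInf_le hbdd ⟨N, k, hN, rfl⟩
    set T := frac (toSeries (N * P ^ k) * Θ) with hT
    have hT0 : T ≠ 0 := by
      intro h0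
      unfold absv at h1
      rw [if_pos h0, mul_zero] at h1
      linarith
    have hne : T.coeff T.order ≠ 0 := by
      rwa [Ne, HahnSeries.coeff_order_eq_zero]
    have hTc : ∀ i : ℤ, T.coeff i = if 1 ≤ i then (toSeries (N * P ^ k) * Θ).coeff i else 0 :=
      fun i => rfl
    have hord : 1 ≤ T.order := by
      by_contra hcon
      rw [hTc, if_neg hcon] at hne
      exact hne rfl
    obtain ⟨i, hi⟩ : ∃ i : ℕ, (i : ℤ) = T.order := ⟨T.order.toNat, Int.toNat_of_nonneg (by omega)⟩
    refine ⟨i, by omega, ?_, ?_⟩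
    · unfold absv at h1
      rw [if_neg hT0, ← hi, zpow_neg, zpow_natCast] at h1
      have h2 : ((Fintype.card F : ℝ) ^ s)⁻¹ < (Fintype.card F : ℝ) ^ N.natDegree *
          ((Fintype.card F : ℝ) ^ i)⁻¹ := by
        refine lt_of_lt_of_le (lt_of_le_of_lt ?_ hs) h1
        rw [one_div, inv_pow]
        apply inv_anti₀ (by positivity)
        exact pow_le_pow_left₀ (by norm_num) hqr s
      have h3 : (Fintype.card F : ℝ) ^ i < (Fintype.card F : ℝ) ^ (N.natDegree + s) := by
        rw [pow_add]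
        rw [← div_eq_mul_inv, lt_div_iff₀ (by positivity), inv_mul_lt_iff₀ (by positivity)] at h2
        linarith
      exact ((pow_lt_pow_iff_right₀ (by linarith)).1 h3).le
    · rw [← hi, hTc, if_pos (by omega)] at hne
      have e : toSeries (N * P ^ k) * Θ = Q271.FF.emb N * (Q271.FF.emb (P ^ k) * Θ) := by
        rw [map_mul, mul_assoc]
        rfl
      rwa [e] at hne
  set Q : ℝ := (Fintype.card F : ℝ) ^ P.natDegree with hQ
  have hQ0 : 0 < Q := by positivity
  set S' : ℝ := (Fintype.card F : ℝ) ^ s with hS'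
  have hS'0 : 0 < S' := by positivity
  -- identification of the sequences
  have hK : ∀ n, K E Θ n = Q271.FF.yv E (Q271.FF.emb (Q271.FF.toPoly E n) * Θ) := by
    intro n
    unfold K evFrac Q271.FF.yv
    apply tsum_congr
    intro i
    have e : (frac (toSeries (poly E n) * Θ)).coeff ((i:ℤ) + 1) =
        (Q271.FF.emb (Q271.FF.toPoly E n) * Θ).coeff ((i:ℤ) + 1) := by
      change (if 1 ≤ (i:ℤ) + 1 then (toSeries (poly E n) * Θ).coeff ((i:ℤ) + 1) else 0) = _
      rw [if_pos (by omega)]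
      rfl
    rw [e]
  have hK0 : ∀ n, 0 ≤ K E Θ n := by
    intro n
    unfold K evFrac
    exact tsum_nonneg fun i => by positivity
  have hV : ∀ n, V E P n = Q271.FF.V E P (Q271.FF.toPoly E n) := fun n => rfl
  have hVm : ∀ g : F[X], 0 ≤ Q271.FF.V E P g ∧ Q271.FF.V E P g < 1 :=
    fun g => Q271.FF.V_mem E hE P hP _ g le_rfl
  refine ⟨100 * (3 * Fintype.card F * (Q + 1) * S' * Fintype.card F + 10), ?_⟩
  intro N hN
  have hNr : (2:ℝ) ≤ N := by exact_mod_cast hN
  have hlog : 1 / 2 ≤ Real.log N := by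
    have h1 : Real.log 2 ≤ Real.log N := Real.log_le_log (by norm_num) hNr
    have := Real.log_two_gt_d9
    linarith
  -- the number of digits
  obtain ⟨m, hm1, hm2⟩ : ∃ m : ℕ, N ≤ Fintype.card F ^ m ∧ (m:ℝ) ≤ 4 * Real.log N := by
    refine ⟨Nat.clog 2 N, ?_, ?_⟩
    · calc N ≤ 2 ^ Nat.clog 2 N := Nat.le_pow_clog (by norm_num) N
        _ ≤ Fintype.card F ^ Nat.clog 2 N := Nat.pow_le_pow_left hq _
    · have h1 : 2 ^ (Nat.clog 2 N).pred < N := Nat.pow_pred_clog_lt_self (by norm_num) (by omega)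
      have h2 : ((Nat.clog 2 N).pred : ℝ) * Real.log 2 < Real.log N := by
        rw [← Real.log_pow]
        exact Real.log_lt_log (by positivity) (by exact_mod_cast h1)
      have h3 : (Nat.clog 2 N : ℝ) ≤ ((Nat.clog 2 N).pred : ℝ) + 1 := by
        have : Nat.clog 2 N ≤ (Nat.clog 2 N).pred + 1 := by
          rw [Nat.pred_eq_sub_one]
          omega
        exact_mod_cast this
      have h4 := Real.log_two_gt_d9
      have h5 : (0:ℝ) ≤ ((Nat.clog 2 N).pred : ℝ) := by positivity
      have h6 : ((Nat.clog 2 N).pred : ℝ) / 2 ≤ Real.log N := by nlinarith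
      linarith
  apply csSup_le
  · exact ⟨_, 0, 0, le_rfl, zero_le_one, le_rfl, zero_le_one, rfl⟩
  · rintro _ ⟨γ, μ, hγ0, hγ1, hμ0, hμ1, rfl⟩
    -- the main estimate
    have hmain : |(((Finset.range N).filter
        (fun n => (K E Θ n, V E P n) ∈ Set.Ico 0 γ ×ˢ Set.Ico 0 μ)).card : ℝ) - γ * μ * N| ≤
        (m + 1) * ((Q + 1) * ((Fintype.card F * m + 1) * S')) + 1 := by
      rcases eq_or_lt_of_le hμ1 with rfl | hμ1'
      · have h1 := Q271.FF.cnt_le E hE Θ γ hγ0 hγ1 P hP s hB 0 0 m 0 N hm1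
        have e : ((Finset.range N).filter
            (fun n => (K E Θ n, V E P n) ∈ Set.Ico 0 γ ×ˢ Set.Ico 0 1)).card =
            Q271.FF.cnt E Θ γ P 0 0 0 m N := by
          unfold Q271.FF.cnt
          congr 1
          apply Finset.filter_congr
          intro n _
          rw [Set.mem_prod, Set.mem_Ico, Set.mem_Ico, mul_zero, zero_add, pow_zero]
          simp only [hK n, hV n]
          constructor
          · exact fun h => ⟨one_dvd _, h.1.2⟩
          · exact fun h => ⟨⟨by rw [← hK n]; exact hK0 n, h.2⟩, hVm _⟩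
        rw [e, mul_one]
        rw [pow_zero, div_one] at h1
        refine h1.trans ?_
        have h2 : 0 ≤ (Fintype.card F * m + 1) * S' := by positivity
        have h3 : (Fintype.card F * m + 1) * S' ≤ (m + 1) * ((Q + 1) * ((Fintype.card F * m + 1) * S')) := by
          have h4 : (1:ℝ) ≤ (m + 1) * (Q + 1) := by
            have : (0:ℝ) ≤ m := by positivity
            nlinarith
          calc (Fintype.card F * m + 1) * S' = 1 * ((Fintype.card F * m + 1) * S') := by ring
            _ ≤ ((m + 1) * (Q + 1)) * ((Fintype.card F * m + 1) * S') := by gcongr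
            _ = _ := by ring
        linarith
      · have h1 := Q271.FF.cnt2_bound E hE Θ γ hγ0 hγ1 P hP s hB m N hm1 m 0 0 μ (by omega)
          hμ0 hμ1'
        have e : ((Finset.range N).filter
            (fun n => (K E Θ n, V E P n) ∈ Set.Ico 0 γ ×ˢ Set.Ico 0 μ)).card =
            Q271.FF.cnt2 E Θ γ μ P 0 0 N := by
          unfold Q271.FF.cnt2
          congr 1
          apply Finset.filter_congr
          intro n _
          rw [Set.mem_prod, Set.mem_Ico, Set.mem_Ico]
          simp only [hK n, hV n]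
          constructor
          · exact fun h => ⟨⟨_, by rw [pow_zero]; ring, h.2.2⟩, h.1.2⟩
          · rintro ⟨⟨g, hg, hVg⟩, h2⟩
            have hg' : g = Q271.FF.toPoly E n := by rw [hg, pow_zero]; ring
            rw [hg'] at hVg
            exact ⟨⟨by rw [← hK n]; exact hK0 n, h2⟩, ⟨(hVm _).1, hVg⟩⟩
        rw [e]
        rw [pow_zero, div_one] at h1
        refine h1.trans ?_
        have h2 : 0 ≤ (Fintype.card F * m + 1) * S' := by positivity
        have h3 : (m:ℝ) * (Q * ((Fintype.card F * m + 1) * S')) ≤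
            (m + 1) * ((Q + 1) * ((Fintype.card F * m + 1) * S')) := by
          gcongr
          · linarith
          · linarith
        linarith
    have e2 : |1 / (N:ℝ) * (((Finset.range N).filter
        (fun n => (K E Θ n, V E P n) ∈ Set.Ico 0 γ ×ˢ Set.Ico 0 μ)).card : ℝ) - γ * μ| =
        |(((Finset.range N).filter
        (fun n => (K E Θ n, V E P n) ∈ Set.Ico 0 γ ×ˢ Set.Ico 0 μ)).card : ℝ) - γ * μ * N| / N := by
      rw [← abs_of_pos (by linarith : (0:ℝ) < N), ← abs_div,
        abs_of_pos (by linarith : (0:ℝ) < N)]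
      congr 1
      field_simp
    rw [e2]
    apply div_le_div_of_nonneg_right _ (by linarith)
    refine hmain.trans ?_
    set l := Real.log N with hl
    have hl0 : 0 < l := by linarith
    have h7 : (m:ℝ) + 1 ≤ 6 * l := by linarith
    have h8 : (Fintype.card F : ℝ) * m + 1 ≤ Fintype.card F * (6 * l) := by nlinarith
    have h9 : (1:ℝ) ≤ 4 * l ^ 2 := by nlinarith
    calc ((m:ℝ) + 1) * ((Q + 1) * ((Fintype.card F * m + 1) * S')) + 1
        ≤ (6 * l) * ((Q + 1) * ((Fintype.card F * (6 * l)) * S')) + 4 * l ^ 2 := by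
          apply add_le_add _ h9
          gcongr
      _ = (36 * (Q + 1) * Fintype.card F * S' + 4) * l ^ 2 := by ring
      _ ≤ 100 * (3 * Fintype.card F * (Q + 1) * S' * Fintype.card F + 10) * l ^ 2 := by
          apply mul_le_mul_of_nonneg_right _ (by positivity)
          have h10 : 0 < (Q + 1) * Fintype.card F * S' := by positivity
          have h11 : (Q + 1) * Fintype.card F * S' ≤ (Q + 1) * Fintype.card F * S' * Fintype.card F :=
            le_mul_of_one_le_right h10.le (by linarith)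
          nlinarith

end Pool.Agent.Results.MP_05fa0d_nt.LowDiscrepancy
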